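import Pool.Agent.Y567.MD.NameC
import Pool.Agent.Y567.MD.MxE

/-!
# Borel completeness can be lost by naming a constant

There are a complete first-order theory `T` in a countable language and an element `c` of a model
`M` of `T` such that `T` is Borel complete and the complete theory `T(c)` of `(M, c)` is not; the
isomorphism relation of `T(c)` is even smooth.
-/

set_option autoImplicit false

namespace Pool.Agent.Results.MP_cae7fa_lc.LostByConstant

open FirstOrder FirstOrder.Language

/-- Formulas of `L_{ω₁ω}` whose free variables are among `x_0, …, x_{n-1}`. -/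
inductive InfFormula (L : FirstOrder.Language.{0, 0}) : ℕ → Type
  | equal {n : ℕ} (t u : L.Term (Fin n)) : InfFormula L n
  | rel {n k : ℕ} (R : L.Relations k) (ts : Fin k → L.Term (Fin n)) : InfFormula L n
  | neg {n : ℕ} (φ : InfFormula L n) : InfFormula L n
  | conj {n : ℕ} (φ : ℕ → InfFormula L n) : InfFormula L n
  | all {n : ℕ} (φ : InfFormula L (n + 1)) : InfFormula L n

/-- Satisfaction of `L_{ω₁ω}`-formulas; `conj` is the conjunction of a sequence of formulas, and
`all` quantifies the last variable. -/
def InfFormula.Sat {L : FirstOrder.Language.{0, 0}} {M : Type} (S : L.Structure M) :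
    {n : ℕ} → InfFormula L n → (Fin n → M) → Prop
  | _, .equal t u, v => @Term.realize L M S _ v t = @Term.realize L M S _ v u
  | _, .rel R ts, v => @Structure.RelMap L M S _ R (fun i => @Term.realize L M S _ v (ts i))
  | _, .neg φ, v => ¬ φ.Sat S v
  | _, .conj φ, v => ∀ i, (φ i).Sat S v
  | _, .all φ, v => ∀ x, φ.Sat S (Fin.snoc v x)

/-- The Borel sets of the space of structures with universe `ℕ`: the σ-algebra generated by the
evaluations of the function and relation symbols at tuples of natural numbers. -/
@[instance_reducible] def borelStr (L : FirstOrder.Language.{0, 0}) :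
    MeasurableSpace (L.Structure ℕ) :=
  MeasurableSpace.comap
    (fun S : L.Structure ℕ =>
      (((fun n (f : L.Functions n) => @Structure.funMap L ℕ S n f),
        (fun n (r : L.Relations n) => @Structure.RelMap L ℕ S n r)) :
        ((n : ℕ) → L.Functions n → (Fin n → ℕ) → ℕ) ×
        ((n : ℕ) → L.Relations n → (Fin n → ℕ) → Prop)))
    inferInstance

/-- The models of a first-order theory with universe `ℕ`. -/
abbrev Mod {L : FirstOrder.Language.{0, 0}} (T : L.Theory) : Type :=
  {S : L.Structure ℕ // @Theory.Model L ℕ S T}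

/-- The models of an `L_{ω₁ω}`-sentence with universe `ℕ`. -/
abbrev InfMod {L : FirstOrder.Language.{0, 0}} (σ : InfFormula L 0) : Type :=
  {S : L.Structure ℕ // σ.Sat S (fun i => i.elim0)}

/-- The Borel sets of a subspace of the space of structures. -/
@[instance_reducible] def borelSub {L : FirstOrder.Language.{0, 0}} (P : L.Structure ℕ → Prop) :
    MeasurableSpace {S : L.Structure ℕ // P S} :=
  MeasurableSpace.comap Subtype.val (borelStr L)

/-- Isomorphism of structures with universe `ℕ`. -/
def Iso {L : FirstOrder.Language.{0, 0}} (A B : L.Structure ℕ) : Prop :=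
  Nonempty (@FirstOrder.Language.Equiv L ℕ ℕ A B)

/-- `T` is Borel complete: for every `L_{ω₁ω}`-sentence `σ` in a countable language, the isomorphism
relation of the models of `σ` is Borel reducible to the isomorphism relation of the models of `T`. -/
def BorelComplete {L : FirstOrder.Language.{0, 0}} (T : L.Theory) : Prop :=
  ∀ (L' : FirstOrder.Language.{0, 0}), Countable L'.Symbols → ∀ σ : InfFormula L' 0,
    ∃ f : InfMod σ → Mod T, @Measurable _ _ (borelSub _) (borelSub _) f ∧
      ∀ A B : InfMod σ, Iso A.1 B.1 ↔ Iso (f A).1 (f B).1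

/-- The isomorphism relation of the models of `T` is Borel reducible to the equality relation on
the Cantor space. -/
def Smooth {L : FirstOrder.Language.{0, 0}} (T : L.Theory) : Prop :=
  ∃ g : Mod T → (ℕ → Bool), @Measurable _ _ (borelSub _) inferInstance g ∧
    ∀ A B : Mod T, Iso A.1 B.1 ↔ g A = g B

/-- The structure `(M, c)` in the language with one additional constant symbol. -/
@[instance_reducible] def addConst {L : FirstOrder.Language.{0, 0}} {M : Type} (S : L.Structure M)
    (c : M) : (L[[Unit]]).Structure M :=
  @Language.sumStructure L (constantsOn Unit) M S (constantsOn.structure fun _ => c)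

/-- The complete theory `T(c)` of `(M, c)`. -/
def thConst {L : FirstOrder.Language.{0, 0}} {M : Type} (S : L.Structure M) (c : M) :
    (L[[Unit]]).Theory :=
  @completeTheory (L[[Unit]]) M (addConst S c)

open Pool.Agent.Y567.MD Pool.Agent.Y567.MD.StdW Pool.Agent.Y567.MD.StdE in
theorem complete_TW : BorelComplete TW := by
  intro L' hL' σ
  obtain ⟨f, hf, hf2⟩ := all_reducible L'
  refine ⟨fun A => f A.1, ?_, fun A B => hf2 A.1 B.1⟩
  exact @Measurable.comp _ _ _ (borelSub _) (borelStr L') (borelSub _) _ _ hf
    (@comap_measurable _ _ (borelStr L') Subtype.val)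

open Pool.Agent.Y567.MD Pool.Agent.Y567.MD.StdW Pool.Agent.Y567.MD.StdE in
/-- the invariants -/
def inv (A : ((Lg pW.ar)[[Unit]]).Structure ℕ) : ℕ → Prop
  | 0 => aLst (rd A)
  | 1 => cLst A
  | n + 2 => if n % 2 = 0 then aTop (rd A) (n / 2) else aJunk (rd A) (n / 2)

open Pool.Agent.Y567.MD Pool.Agent.Y567.MD.StdW Pool.Agent.Y567.MD.StdE in
theorem inv_iff (A B : ((Lg pW.ar)[[Unit]]).Structure ℕ) : (∀ n, inv A n ↔ inv B n) ↔
    (∀ k, aTop (rd A) k ↔ aTop (rd B) k) ∧ (aLst (rd A) ↔ aLst (rd B)) ∧
      (∀ j, aJunk (rd A) j ↔ aJunk (rd B) j) ∧ (cLst A ↔ cLst B) := by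
  constructor
  · intro h
    refine ⟨fun k => ?_, h 0, fun j => ?_, h 1⟩
    · have := h (2 * k + 2)
      simp only [inv] at this
      rwa [if_pos (by omega), if_pos (by omega), show 2 * k / 2 = k by omega] at this
    · have := h (2 * j + 1 + 2)
      simp only [inv] at this
      rwa [if_neg (by omega), if_neg (by omega), show (2 * j + 1) / 2 = j by omega] at this
  · rintro ⟨h1, h2, h3, h4⟩ n
    match n with
    | 0 => exact h2
    | 1 => exact h4
    | n + 2 =>
      simp only [inv]
      split_ifs
      · exact h1 _
      · exact h3 _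

open Pool.Agent.Y567.MD Pool.Agent.Y567.MD.StdW Pool.Agent.Y567.MD.StdE in
theorem smooth_TC : Smooth (thConst (str sI Empty) cI) := by
  classical
  refine ⟨fun A n => decide (inv A.1 n), ?_, fun A B => ?_⟩
  · let _ : MeasurableSpace (((Lg pW.ar)[[Unit]]).Structure ℕ) := borelStr _
    have h0 : Measurable (fun A : Mod (thConst (str sI Empty) cI) => A.1) := measurable_subtype_coe
    have hf : ∀ {n : ℕ} (R : Rl pW.ar n) (v : Fin n → ℕ),
        Measurable (fun A : Mod (thConst (str sI Empty) cI) => rm (rd A.1) R v) := fun R v =>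
      (mS_rel ((Lg pW.ar)[[Unit]]) (Sum.inl R) v).comp h0
    have hc : Measurable (fun A : Mod (thConst (str sI Empty) cI) => cst A.1) :=
      (mS_fun ((Lg pW.ar)[[Unit]]) ((Lg pW.ar).con ()) _).comp h0
    have hlst : Measurable (fun A : Mod (thConst (str sI Empty) cI) => cLst A.1) := by
      have : (fun A : Mod (thConst (str sI Empty) cI) => cLst A.1) =
          fun A => ∃ c, cst A.1 = c ∧ ∀ m', (∀ n, rm (rd A.1) (.U n) ![m']) →
            ¬ rm (rd A.1) .Lt ![m', c] := by
        ext A
        constructor
        · exact fun h => ⟨_, rfl, h⟩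
        · rintro ⟨c, rfl, h⟩
          exact h
      rw [this]
      refine Measurable.exists fun c => Measurable.and ?_ (Measurable.forall fun m' =>
        (Measurable.forall fun n => hf (.U n) _).imp (hf .Lt _).not)
      exact (measurable_of_countable (fun x : ℕ => x = c)).comp hc
    have hinv : ∀ n, Measurable (fun A : Mod (thConst (str sI Empty) cI) => inv A.1 n) := by
      intro n
      match n with
      | 0 => exact meas_lst hf
      | 1 => exact hlst
      | n + 2 =>
        simp only [inv]
        split_ifs
        · exact meas_top hf _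
        · exact meas_junk hf _
    exact measurable_pi_lambda _ fun n =>
      (measurable_of_countable (fun p : Prop => decide p)).comp (hinv n)
  · have h1 := TC_iso A.1 B.1 A.2 B.2
    rw [← inv_iff] at h1
    refine h1.trans ?_
    constructor
    · intro h
      ext n
      simp only [h n]
    · intro h n
      have := congrFun h n
      simpa using this

theorem not_complete_of_smooth {L : FirstOrder.Language.{0, 0}} {T : L.Theory} (h : Smooth T) :
    ¬ BorelComplete T := by
  intro hB
  obtain ⟨g, hg, hg2⟩ := h
  have hsat : ∀ S : (Pool.Agent.Y567.MD.Lg Pool.Agent.Y567.MD.StdE.pE.ar).Structure ℕ,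
      (InfFormula.all (.equal (var 0) (var 0)) : InfFormula _ 0).Sat S (fun i => i.elim0) :=
    fun S x => rfl
  obtain ⟨f, hf, hf2⟩ := hB (Pool.Agent.Y567.MD.Lg Pool.Agent.Y567.MD.StdE.pE.ar) inferInstance
    (.all (.equal (var 0) (var 0)))
  refine Pool.Agent.Y567.MD.StdE.Mx_not_smooth (borelSub _) (fun A => f ⟨A, hsat A⟩) ?_ g hg
    fun A B => ?_
  · have h1 : @Measurable _ _ (borelStr (Pool.Agent.Y567.MD.Lg Pool.Agent.Y567.MD.StdE.pE.ar))
        (borelSub _) (fun A => (⟨A, hsat A⟩ : InfMod (.all (.equal (var 0) (var 0))))) := by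
      rw [borelSub, measurable_comap_iff]
      exact measurable_id
    exact @Measurable.comp _ _ _ (borelStr _) (borelSub _) (borelSub _) _ _ hf h1
  · exact (hf2 ⟨A, hsat A⟩ ⟨B, hsat B⟩).trans (hg2 _ _)

/-- **Borel completeness can be lost by naming a constant.** There are a countable language `L`, a
complete `L`-theory `T`, an infinite model `M` of `T` and an element `c` of `M` such that `T` is
Borel complete, and the complete theory `T(c)` of `(M, c)` is not Borel complete; in fact the
isomorphism relation of the models of `T(c)` is smooth. -/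
theorem result : ∃ (L : FirstOrder.Language.{0, 0}) (T : L.Theory) (M : Type) (S : L.Structure M)
    (c : M), Countable L.Symbols ∧ T.IsComplete ∧ Infinite M ∧ @Theory.Model L M S T ∧
      BorelComplete T ∧ ¬ BorelComplete (thConst S c) ∧ Smooth (thConst S c) := by
  refine ⟨Pool.Agent.Y567.MD.Lg Pool.Agent.Y567.MD.StdW.pW.ar, Pool.Agent.Y567.MD.StdW.TW,
    Pool.Agent.Y567.MD.StdW.UI, Pool.Agent.Y567.MD.str Pool.Agent.Y567.MD.StdW.sI Empty,
    Pool.Agent.Y567.MD.StdW.cI, inferInstance, ?_, inferInstance,
    Pool.Agent.Y567.MD.StdW.UI_model, complete_TW, not_complete_of_smooth smooth_TC, smooth_TC⟩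
  exact @completeTheory.isComplete _ _ (_) _

end Pool.Agent.Results.MP_cae7fa_lc.LostByConstant
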